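import Pool.Agent.V11324.Rotor.Homoclinic

set_option autoImplicit false

/-! The oriented wired uniform spanning forest is not the only stationary measure. -/

namespace Pool.Agent.Results.MP_c09afc_pr.NotUnique

open MeasureTheory Pool.Agent.V11324.Rotor

/-- **Theorem.** Let `d ≥ 3`, let `τ` be any cyclic local mechanisms, `a` any starting vertex and
`ν` the oriented wired uniform spanning forest of `ℤ^d`. It is not true that `ν` is an
infinite-step stationary measure and the only one. -/
theorem result (d : ℕ) (hd : 3 ≤ d)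
    (τ : (x : Fin d → ℤ) → Equiv.Perm ((latticeGraph d).neighborSet x))
    (hτ : ∀ x (e e' : (latticeGraph d).neighborSet x), ∃ n : ℕ, (τ x)^[n] e = e')
    (a : Fin d → ℤ) (ν : Measure (Config (latticeGraph d))) (hν : IsOWUSF (latticeGraph d) ν) :
    ¬ (IsStationary τ a ν ∧ ∀ μ, IsStationary τ a μ → μ = ν) := by
  have hd2 : 2 ≤ d := by omega
  obtain ⟨x, s, hxs⟩ := exists_nonint hd2 a
  obtain ⟨Λ, hΛ⟩ := exists_surround hd2 x
  have habs := summable_hh hd2 a
  have hsh : ∀ s : Fin d × Bool, Summable fun y => |hh hd2 a (y + dir s)| := fun s =>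
    (Equiv.addRight (dir s)).summable_iff.2 habs
  refine not_unique τ hτ a (hh hd2 a) (Summable.of_abs habs) ?_ ?_ ⟨0, by rw [hh_center]; simp⟩
    x ⟨x + dir s, (adj_iff _ _).2 ⟨s, rfl⟩⟩ hxs hΛ ν hν
  · have e : (fun y => ∑ e : (latticeGraph d).neighborSet y, |hh hd2 a e - hh hd2 a y|) =
        fun y => ∑ s, |hh hd2 a (y + dir s) - hh hd2 a y| := by
      funext y
      exact sum_neighbors y fun z => |hh hd2 a z - hh hd2 a y|
    rw [e]
    refine summable_sum fun s _ => ?_
    exact Summable.of_nonneg_of_le (fun y => abs_nonneg _) (fun y => abs_sub _ _)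
      ((hsh s).add habs)
  · intro y
    rw [sum_neighbors y fun z => hh hd2 a z - hh hd2 a y, laplace]
    obtain ⟨n, hn⟩ := gg_int hd2 a y
    exact ⟨-(2 * d) * n, by rw [hn]; push_cast; ring⟩

end Pool.Agent.Results.MP_c09afc_pr.NotUnique
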